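import Mathlib
import Pool.Agent.R698.Periodic

set_option autoImplicit false

/-!
# MP_b55e4c_al: a periodic ring whose ring of `3 × 3` matrices is not `π`-UU

Let `M` be a non-nilpotent matrix over a nil ideal `D` of a periodic algebra over the field with `p`
elements (`Pool.Agent.R698.exists_periodic`). Then `A = 1 + M` is invertible. If `A ^ i - 1` is nilpotent,
`i ≥ 1`, then `A` is algebraic over the field with `p` elements, so that two powers of `M` with different
exponents are equal and `M` is nilpotent.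
-/

open Pool.Agent.R698

/-- For every prime `p` there are a ring `R` with `p = 0` in `R` which is periodic (each element has two
equal powers with different positive exponents) and an invertible `3 × 3` matrix `A` over `R` such that
`A ^ i - 1` is not nilpotent for all `i ≥ 1`. -/
theorem Pool.Agent.Results.MP_b55e4c_al.NotPiUU.result (p : ℕ) (hp : p.Prime) :
    ∃ (R : Type) (_ : Ring R), (p : R) = 0 ∧
      (∀ x : R, ∃ m k : ℕ, 1 ≤ k ∧ k < m ∧ x ^ m = x ^ k) ∧
      ∃ A : (Matrix (Fin 3) (Fin 3) R)ˣ, ∀ i : ℕ, 1 ≤ i →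
        ¬ IsNilpotent ((A : Matrix (Fin 3) (Fin 3) R) ^ i - 1) := by
  have : Fact p.Prime := ⟨hp⟩
  obtain ⟨R, _, _, D, h1, h2, M, h3, h4⟩ := Pool.Agent.R698.exists_periodic p
  obtain ⟨Z, hZ1, hZ2, -⟩ := isUnit_one_add_mat D h2 M h3
  refine ⟨R, inferInstance, ?_, h1, ⟨1 + M, Z, hZ2, hZ1⟩, fun i hi h => h4 ?_⟩
  · have h : algebraMap (ZMod p) R (p : ZMod p) = 0 := by
      rw [ZMod.natCast_self, map_zero]
    rwa [map_natCast] at h
  · obtain ⟨n, hn⟩ := h
    change ((1 + M) ^ i - 1) ^ n = 0 at hn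
    have hint : IsIntegral (ZMod p) (1 + M) := by
      refine ⟨(Polynomial.X ^ i - Polynomial.C 1) ^ n,
        (Polynomial.monic_X_pow_sub_C 1 (by omega)).pow n, ?_⟩
      rw [← Polynomial.aeval_def, map_pow, map_sub, map_pow, Polynomial.aeval_X, Polynomial.aeval_C,
        map_one, hn]
    have hM : M ∈ Algebra.adjoin (ZMod p) {1 + M} := by
      have h5 : (1 + M) - 1 ∈ Algebra.adjoin (ZMod p) {1 + M} :=
        Subalgebra.sub_mem _ (Algebra.subset_adjoin rfl) (Subalgebra.one_mem _)
      rwa [add_sub_cancel_left] at h5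
    obtain ⟨m, k, _, h6, h7⟩ := rep (1 + M) hint M hM
    exact nilp_of_pow_eq D h2 M h3 m k h6 h7
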